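import Pool.Agent.Helper850.TC.Defs
import Pool.Agent.Helper850.TC.Gr6

namespace Pool.Agent.Results.MP_40dd6f_co.TruncatedCubic

open SimpleGraph Pool.Agent.Helper850.TC

/-- Sanity check: the truncation of a cubic graph is cubic. -/
theorem truncation_cubic {V : Type*} [Fintype V] [DecidableEq V] (G : SimpleGraph V)
    [DecidableRel G.Adj] (hG : G.IsRegularOfDegree 3) (d : G.Dart) :
    ((truncation G).neighborSet d).ncard = 3 := by
  obtain ⟨p, q, r, hp, hq, hr, hpq, hpr, hqr⟩ := three_darts (G := G) (fun v => hG v) d.fst
  have hsy : ∀ e : G.Dart, e.fst = d.fst → e ≠ d.symm := by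
    intro e he h
    have h1 : e.fst = d.snd := by rw [h]; rfl
    exact d.adj.ne (he.symm.trans h1)
  have main : ∀ a b : G.Dart, a.fst = d.fst → b.fst = d.fst → d ≠ a → d ≠ b → a ≠ b →
      (∀ e : G.Dart, e.fst = d.fst → e = d ∨ e = a ∨ e = b) →
      ((truncation G).neighborSet d).ncard = 3 := by
    intro a b ha hb hda hdb hab hcov
    have hset : (truncation G).neighborSet d = {a, b, d.symm} := by
      ext e
      simp only [Set.mem_insert_iff, Set.mem_singleton_iff]
      constructor
      · rintro (⟨h1, h2⟩ | h)
        · rcases hcov e h1.symm with h | h | h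
          · exact absurd h.symm h2
          · exact Or.inl h
          · exact Or.inr (Or.inl h)
        · exact Or.inr (Or.inr h)
      · rintro (rfl | rfl | h)
        · exact Or.inl ⟨ha.symm, hda⟩
        · exact Or.inl ⟨hb.symm, hdb⟩
        · exact Or.inr h
    rw [hset, Set.ncard_eq_three]
    exact ⟨a, b, d.symm, hab, hsy a ha, hsy b hb, rfl⟩
  rcases dart_cover (fun v => hG v) hp hq hr (rfl : d.fst = d.fst) hpq hpr hqr with h | h | h
  · subst h
    exact main q r hq hr hpq hpr hqr
      (fun e he => dart_cover (fun v => hG v) hp hq hr he hpq hpr hqr)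
  · subst h
    exact main p r hp hr hpq.symm hqr hpr (fun e he => by
      rcases dart_cover (fun v => hG v) hp hq hr he hpq hpr hqr with h | h | h
      · exact Or.inr (Or.inl h)
      · exact Or.inl h
      · exact Or.inr (Or.inr h))
  · subst h
    exact main p q hp hq hpr.symm hqr.symm hpq (fun e he => by
      rcases dart_cover (fun v => hG v) hp hq hr he hpq hpr hqr with h | h | h
      · exact Or.inr (Or.inl h)
      · exact Or.inr (Or.inr h)
      · exact Or.inl h)

/-- Sanity check: cubic graphs exist, for example the complete graph on four vertices. -/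
theorem complete_four_cubic : (⊤ : SimpleGraph (Fin 4)).IsRegularOfDegree 3 := by
  intro v
  simp

/-- For every nonempty finite simple cubic graph `G`, the strong chromatic index of its
truncation is exactly six. -/
theorem result {V : Type*} [Fintype V] [Nonempty V] (G : SimpleGraph V) [DecidableRel G.Adj]
    (hG : G.IsRegularOfDegree 3) : strongChromaticIndex (truncation G) = 6 := by
  classical
  exact main_six (fun v => hG v)

end Pool.Agent.Results.MP_40dd6f_co.TruncatedCubic
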